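import Mathlib

/-!
Two lemmas on commutative rings with three commuting derivations.
-/

namespace Pool.Agent.R739.PPWave

section

variable {A : Type*} [CommRing A] [Algebra ℝ A]

theorem der_mul (D : Derivation ℝ A A) (a b : A) : D (a * b) = a * D b + b * D a := by
  rw [Derivation.leibniz]; rfl

theorem der_n2 (D : Derivation ℝ A A) : D 2 = 0 := by
  have := D.map_natCast 2; simpa using this

theorem der_n3 (D : Derivation ℝ A A) : D 3 = 0 := by
  have := D.map_natCast 3; simpa using this

theorem der_n4 (D : Derivation ℝ A A) : D 4 = 0 := by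
  have := D.map_natCast 4; simpa using this

theorem der_n6 (D : Derivation ℝ A A) : D 6 = 0 := by
  have := D.map_natCast 6; simpa using this

theorem der_sq (D : Derivation ℝ A A) (a : A) : D (a ^ 2) = 2 * a * D a := by
  rw [pow_two, der_mul]; ring

theorem der_cube (D : Derivation ℝ A A) (a : A) : D (a ^ 3) = 3 * a ^ 2 * D a := by
  rw [show a ^ 3 = a * a ^ 2 by ring, der_mul, der_sq]; ring

theorem der_four (D : Derivation ℝ A A) (a : A) : D (a ^ 4) = 4 * a ^ 3 * D a := by
  rw [show a ^ 4 = a * a ^ 3 by ring, der_mul, der_cube]; ring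

theorem cancel_nat (k : ℝ) (hk : k ≠ 0) (a : A) (h : algebraMap ℝ A k * a = 0) : a = 0 := by
  have : a = algebraMap ℝ A k⁻¹ * (algebraMap ℝ A k * a) := by
    rw [← mul_assoc, ← map_mul, inv_mul_cancel₀ hk, map_one, one_mul]
  rw [this, h, mul_zero]

theorem cancel_two (a : A) (h : 2 * a = 0) : a = 0 :=
  cancel_nat 2 (by norm_num) a (by rw [map_ofNat]; exact h)

theorem cancel_six (a : A) (h : 6 * a = 0) : a = 0 :=
  cancel_nat 6 (by norm_num) a (by rw [map_ofNat]; exact h)

theorem cancel_24 (a : A) (h : 24 * a = 0) : a = 0 :=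
  cancel_nat 24 (by norm_num) a (by rw [map_ofNat]; exact h)

variable (X Y T : Derivation ℝ A A)

/-- A null conformal Killing field of `dt dy + dx² + H dy²`, `H_xxx = 6`, is a multiple of `∂_t`. -/
theorem null_ckf (hXY : ∀ a, X (Y a) = Y (X a)) (hXT : ∀ a, X (T a) = T (X a))
    (hYT : ∀ a, Y (T a) = T (Y a)) (a b c l H : A) (hHt : T H = 0)
    (hH : X (X (X H)) = 6)
    (exx : 2 * X a = l) (ett : T b = 0) (ext : 2 * T a + X b = 0) (eyt : Y b + T c = l)
    (exy : 2 * H * X b + X c + 2 * Y a = 0)
    (eyy : a * X H + b * Y H + 2 * H * Y b + Y c = l * H)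
    (null : b * c + a ^ 2 + H * b ^ 2 = 0) : b ^ 2 = 0 ∧ a ^ 2 = - (b * c) := by
  -- derivatives of zero
  have hTXb : T (X b) = 0 := by rw [← hXT, ett, map_zero]
  have hTYb : T (Y b) = 0 := by rw [← hYT, ett, map_zero]
  have hTXXb : T (X (X b)) = 0 := by rw [← hXT, hTXb, map_zero]
  have hTYXb : T (Y (X b)) = 0 := by rw [← hYT, hTXb, map_zero]
  have hTYYb : T (Y (Y b)) = 0 := by rw [← hYT, hTYb, map_zero]
  have hTXH : T (X H) = 0 := by rw [← hXT, hHt, map_zero]
  have hTYH : T (Y H) = 0 := by rw [← hYT, hHt, map_zero]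
  have hl : l = 2 * X a := exx.symm
  subst hl
  -- T l = - X X b
  have hTl : 2 * T (X a) = - X (X b) := by
    have h := congrArg X ext
    simp only [map_add, der_mul, der_n2, map_zero, hXT] at h
    linear_combination h
  have hTTc : T (T c) = - X (X b) := by
    have h := congrArg T eyt
    simp only [map_add, hTYb, der_mul, der_n2] at h
    linear_combination h + hTl
  have hTXc : T (X c) = Y (X b) := by
    have h := congrArg T exy
    have h2 := congrArg Y ext
    simp only [map_add, der_mul, der_n2, map_zero, hTXb, hHt] at h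
    simp only [map_add, der_mul, der_n2, map_zero, hYT] at h2
    linear_combination h - h2
  have hXXa : X (X a) = X (Y b) := by
    have h := congrArg X eyt
    simp only [map_add, der_mul, der_n2] at h
    rw [hXT, hTXc, ← hXY] at h
    have : (2 : A) * (X (X a) - X (Y b)) = 0 := by linear_combination -h
    exact sub_eq_zero.1 (cancel_two _ this)
  have hXXXb : X (X (X b)) = 0 := by
    have h := congrArg T hTXc
    rw [hTYXb, ← hXT, ← hXT, hTTc, map_neg] at h
    linear_combination -h
  -- the equation E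
  have hTYc : T (Y c) = 2 * Y (X a) - Y (Y b) := by
    have h := congrArg Y eyt
    simp only [map_add, der_mul, der_n2] at h
    rw [hYT] at h
    linear_combination h
  have hE : - (X b * X H) + 4 * Y (X a) - 2 * Y (Y b) + 2 * (X (X b) * H) = 0 := by
    have h := congrArg T eyy
    simp only [map_add, der_mul, der_n2, hTYc, hTXH, ett, hTYH, hTYb, hHt] at h
    linear_combination 2 * h - X H * ext + 2 * H * hTl
  have hYXXb : Y (X (X b)) = 0 := by
    have h := congrArg T hE
    have h2 := congrArg Y hTl
    simp only [map_neg, der_mul, der_n2] at h2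
    simp only [map_add, map_sub, map_neg, map_zero, der_mul, der_n2, der_n4, hTXb, hTXH, hTYYb,
      hTXXb, hHt, ← hYT] at h
    have h3 : (2 : A) * Y (X (X b)) = 0 := by linear_combination 2 * h2 - h
    exact cancel_two _ h3
  have hXXYXa : X (X (Y (X a))) = 0 := by
    rw [hXY, hXY, hXXa]
    have : X (X (Y b)) = 0 := by rw [hXY, hXY, hYXXb]
    rw [this, map_zero]
  have hXXYYb : X (X (Y (Y b))) = 0 := by
    rw [hXY, hXY, hXY, hXY, hYXXb, map_zero]
  have hXb : X b = 0 := by
    have h := congrArg X (congrArg X hE)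
    simp only [map_add, map_sub, map_neg, map_zero, der_mul, der_n2, der_n4, hXXYXa, hXXYYb,
      hXXXb, hH] at h
    apply cancel_six
    linear_combination -h
  -- consequences
  have hTa : T a = 0 := by
    apply cancel_two
    linear_combination ext - hXb
  have hXXa0 : X (X a) = 0 := by rw [hXXa, hXY, hXb, map_zero]
  have hXc : X c = - (2 * Y a) := by linear_combination exy - 2 * H * hXb
  have hXXXc : X (X (X c)) = 0 := by
    rw [hXc]
    simp only [map_neg, der_mul, der_n2, map_zero, hXY, hXXa0, map_add]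
    ring
  have hb2 : b ^ 2 = 0 := by
    have h := congrArg X (congrArg X (congrArg X null))
    simp only [map_add, map_zero, der_mul, der_sq, der_n2, hXb, hXXa0, mul_zero,
      add_zero, zero_add, hXXXc, hH] at h
    apply cancel_six
    linear_combination h
  exact ⟨hb2, by linear_combination null - H * hb2⟩

/-- No conformal isomorphism preserving the direction of `∂_t` between `dt dy + dx² + x⁴ dy²` and
`dt dy + dx² + (x³ + h(y) x) dy²`. -/
theorem no_iso (hXY : ∀ a, X (Y a) = Y (X a)) (hXT : ∀ a, X (T a) = T (X a))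
    (hYT : ∀ a, Y (T a) = T (Y a)) (ξ : A) (hξ : X ξ = 1)
    (F G S w k k' : A) (hw : IsUnit w) (hFT : T F = 0) (hGT : T G = 0) (hk : X k = k' * X G)
    (exx : X F ^ 2 + X S * X G + (F ^ 3 + k * F) * X G ^ 2 = w)
    (ext : T S * X G = 0) (eyt : T S * Y G = w)
    (exy : X S * Y G + Y S * X G + 2 * (X F * Y F) + 2 * ((F ^ 3 + k * F) * (X G * Y G)) = 0)
    (eyy : Y S * Y G + Y F ^ 2 + (F ^ 3 + k * F) * Y G ^ 2 = w * ξ ^ 4) : (1 : A) = 0 := by
  have huTS : IsUnit (T S) := by
    rw [← eyt] at hw; exact isUnit_of_mul_isUnit_left hw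
  have huYG : IsUnit (Y G) := by
    rw [← eyt] at hw; exact isUnit_of_mul_isUnit_right hw
  have hXG : X G = 0 := by
    obtain ⟨v, hv⟩ := huTS
    have : (v⁻¹ : Aˣ) * (T S * X G) = X G := by rw [← hv, ← mul_assoc, Units.inv_mul, one_mul]
    rw [← this, ext, mul_zero]
  have hXF : X F ^ 2 = w := by rw [← exx, hXG]; ring
  have huXF : IsUnit (X F) := by
    rw [← hXF] at hw; exact (isUnit_pow_iff two_ne_zero).1 hw
  have hTXF : T (X F) = 0 := by rw [← hXT, hFT, map_zero]
  have hXk : X k = 0 := by rw [hk, hXG, mul_zero]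
  have hTYF : T (Y F) = 0 := by rw [← hYT, hFT, map_zero]
  have hTYG : T (Y G) = 0 := by rw [← hYT, hGT, map_zero]
  have hXYG : X (Y G) = 0 := by rw [hXY, hXG, map_zero]
  have exy' : X S * Y G = - (2 * (X F * Y F)) := by
    linear_combination exy - (Y S + 2 * (F ^ 3 + k * F) * Y G) * hXG
  have cancelYG : ∀ z : A, z * Y G = 0 → z = 0 := by
    intro z hz
    obtain ⟨v, hv⟩ := huYG
    have : z * Y G * (v⁻¹ : Aˣ) = z := by rw [← hv, mul_assoc, Units.mul_inv, mul_one]
    rw [← this, hz, zero_mul]
  have cancelXF : ∀ z : A, X F * z = 0 → z = 0 := by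
    intro z hz
    obtain ⟨v, hv⟩ := huXF
    have : (v⁻¹ : Aˣ) * (X F * z) = z := by rw [← hv, ← mul_assoc, Units.inv_mul, one_mul]
    rw [← this, hz, mul_zero]
  have hTXS : T (X S) = 0 := by
    apply cancelYG
    have h := congrArg T exy'
    simp only [map_neg, der_mul, der_n2, hTYG, hTYF, hTXF] at h
    linear_combination h
  have hXw : X w = 0 := by
    have h := congrArg X eyt
    rw [der_mul, hXYG, hXT, hTXS] at h
    linear_combination -h
  have hXXF : X (X F) = 0 := by
    apply cancelXF
    apply cancel_two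
    have h := congrArg X hXF
    rw [der_sq, hXw] at h
    linear_combination h
  have hXXYF : X (X (Y F)) = 0 := by rw [hXY, hXY, hXXF, map_zero]
  have hXXXS : X (X (X S)) = 0 := by
    apply cancelYG
    have h := congrArg X (congrArg X exy')
    simp only [map_neg, map_add, der_mul, der_n2, hXYG, hXXF, hXXYF, mul_zero, add_zero,
      zero_add, map_zero, neg_zero] at h
    linear_combination h
  have hXXXYS : X (X (X (Y S))) = 0 := by rw [hXY, hXY, hXY, hXXXS, map_zero]
  -- fourth derivative of `eyy`
  have h := congrArg X (congrArg X (congrArg X (congrArg X eyy)))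
  simp only [map_add, der_mul, der_sq, der_cube, der_four, der_n2, der_n3, der_n4, hXYG, hXXF,
    hXXYF, hXXXYS, hXk, hXw, hξ, mul_zero, add_zero, zero_add, map_zero, zero_mul, mul_one] at h
  have h24 : (24 : A) * w = 0 := by linear_combination -h
  have hw0 := cancel_24 _ h24
  rw [hw0] at hw
  have := isUnit_zero_iff.1 hw
  exact this.symm

end

end Pool.Agent.R739.PPWave
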