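import Mathlib

/-!
# Lorentzian metrics on open subsets of `ℝ³`, in coordinates

Definitions used for `MP_89bbb3_gt`. Points of `ℝ³` are written `(x, y, t) = (p 0, p 1, p 2)`.
-/

open scoped ContDiff BigOperators

namespace Pool.Agent.R739.PPWave

/-- `ℝ³`, with coordinates `(x, y, t) = (p 0, p 1, p 2)`. -/
abbrev V : Type := Fin 3 → ℝ

/-- The `i`-th partial derivative of `f` at `p`. -/
noncomputable def pd (i : Fin 3) (f : V → ℝ) (p : V) : ℝ := fderiv ℝ f p (Pi.single i 1)

/-- A field of `3 × 3` matrices: the components `g_ij` of a metric. -/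
abbrev Field : Type := V → Matrix (Fin 3) (Fin 3) ℝ

/-- `g` is a smooth Lorentzian metric on the open set `U`, of signature `(1, 2)`: symmetric, and
at every point of `U` it has one negative and two positive directions (in a suitable basis, the
columns of an invertible matrix `E`, it is `diag (-1, 1, 1)`). -/
structure IsLorentzian (U : Set V) (g : Field) : Prop where
  smooth : ∀ i j, ContDiffOn ℝ ∞ (fun p => g p i j) U
  symm : ∀ p ∈ U, (g p).IsSymm
  sign : ∀ p ∈ U, ∃ E : Matrix (Fin 3) (Fin 3) ℝ, IsUnit E.det ∧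
    E.transpose * g p * E = Matrix.diagonal ![-1, 1, 1]

/-- The Christoffel symbol `Γ^k_ij` of `g`. -/
noncomputable def christoffel (g : Field) (k i j : Fin 3) (p : V) : ℝ :=
  (1 / 2) * ∑ l, (g p)⁻¹ k l * (pd i (fun q => g q j l) p + pd j (fun q => g q i l) p
    - pd l (fun q => g q i j) p)

/-- The component `Ric_ij = ∂_k Γ^k_ij - ∂_j Γ^k_ik + Γ^k_kl Γ^l_ij - Γ^k_jl Γ^l_ik` of the Ricci
tensor of `g`. -/
noncomputable def ricci (g : Field) (i j : Fin 3) (p : V) : ℝ :=
  ∑ k, (pd k (christoffel g k i j) p - pd j (christoffel g k i k) p)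
    + ∑ k, ∑ l, (christoffel g k k l p * christoffel g l i j p
      - christoffel g k j l p * christoffel g l i k p)

/-- The scalar curvature `Scal = g^ij Ric_ij`. -/
noncomputable def scalar (g : Field) (p : V) : ℝ := ∑ i, ∑ j, (g p)⁻¹ i j * ricci g i j p

/-- The Schouten tensor `P_ab = Ric_ab - (1/4) Scal g_ab` (dimension three). -/
noncomputable def schouten (g : Field) (a b : Fin 3) (p : V) : ℝ :=
  ricci g a b p - 1 / 4 * scalar g p * g p a b

/-- The covariant derivative `∇_c P_ab` of the Schouten tensor. -/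
noncomputable def nablaSchouten (g : Field) (c a b : Fin 3) (p : V) : ℝ :=
  pd c (schouten g a b) p
    - ∑ k, (christoffel g k c a p * schouten g k b p + christoffel g k c b p * schouten g a k p)

/-- The Cotton tensor `Y_cab = ∇_a P_bc - ∇_b P_ac`. -/
noncomputable def cotton (g : Field) (c a b : Fin 3) (p : V) : ℝ :=
  nablaSchouten g a b c p - nablaSchouten g b a c p

/-- The component `(L_k g)_ij = k^c ∂_c g_ij + g_cj ∂_i k^c + g_ic ∂_j k^c` of the Lie derivative
of `g` along the vector field `k`. -/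
noncomputable def lieDeriv (g : Field) (k : V → V) (i j : Fin 3) (p : V) : ℝ :=
  ∑ c, (k p c * pd c (fun q => g q i j) p + g p c j * pd i (fun q => k q c) p
    + g p i c * pd j (fun q => k q c) p)

/-- `k` is a conformal Killing field of `(U, g)`: a smooth vector field with `L_k g = λ g` for a
smooth function `λ`. -/
def IsConformalKilling (U : Set V) (g : Field) (k : V → V) : Prop :=
  ContDiffOn ℝ ∞ k U ∧ ∃ lam : V → ℝ, ContDiffOn ℝ ∞ lam U ∧
    ∀ p ∈ U, ∀ i j, lieDeriv g k i j p = lam p * g p i j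

/-- `k` is normal: `Y_abr k^r = 0`. -/
def IsNormal (U : Set V) (g : Field) (k : V → V) : Prop :=
  ∀ p ∈ U, ∀ a b, ∑ r, cotton g a b r p * k p r = 0

/-- The Jacobian matrix of `φ` at `p`: its `(A, i)` entry is `∂_i φ^A`. -/
noncomputable def jac (φ : V → V) (p : V) : Matrix (Fin 3) (Fin 3) ℝ :=
  Matrix.of fun A i => pd i (fun q => φ q A) p

/-- `φ` is a conformal isomorphism from the open set `(U, g)` onto the open set `(U', g')`: a
diffeomorphism `U → U'`, with inverse `ψ`, such that `φ^* g' = e^{2u} g` for a smooth function `u`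
on `U`. -/
def IsConformalIso (U : Set V) (g : Field) (U' : Set V) (g' : Field) (φ : V → V) : Prop :=
  ContDiffOn ℝ ∞ φ U ∧ Set.MapsTo φ U U' ∧
  (∃ ψ : V → V, ContDiffOn ℝ ∞ ψ U' ∧ Set.MapsTo ψ U' U ∧ (∀ p ∈ U, ψ (φ p) = p) ∧
    ∀ q ∈ U', φ (ψ q) = q) ∧
  ∃ u : V → ℝ, ContDiffOn ℝ ∞ u U ∧
    ∀ p ∈ U, (jac φ p).transpose * g' (φ p) * jac φ p = Real.exp (2 * u p) • g p

/-- The metric `½ (dt ⊗ dy + dy ⊗ dt) + dx² + H dy²`. -/
noncomputable def ppWave (H : V → ℝ) : Field := fun p =>
  !![1, 0, 0; 0, H p, 1 / 2; 0, 1 / 2, 0]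

/-- The metric `g_h = ½ (dt ⊗ dy + dy ⊗ dt) + dx² + (x³ + h(y) x) dy²` of the problem. -/
noncomputable def gh (h : ℝ → ℝ) : Field := ppWave fun p => p 0 ^ 3 + h (p 1) * p 0

end Pool.Agent.R739.PPWave
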