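import Pool.Agent.R739.PPWave.Ring

open scoped ContDiff BigOperators

namespace Pool.Agent.R739.PPWave

/-- the metric `dt dy + dx² + x⁴ dy²` -/
noncomputable def gEx : Field := ppWave fun p => p 0 ^ 4

theorem pd_coord (i j : Fin 3) (p : V) : pd i (fun q => q j) p = if i = j then 1 else 0 := by
  unfold pd
  have : (fun q : V => q j) = (ContinuousLinearMap.proj j : V →L[ℝ] ℝ) := rfl
  rw [this, ContinuousLinearMap.fderiv]
  simp [Pi.single_apply, eq_comm]

theorem pd_pow_zero (n : ℕ) (c : ℝ) (i : Fin 3) (p : V) :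
    pd i (fun q => c * q 0 ^ n) p = if i = 0 then c * (n * p 0 ^ (n - 1)) else 0 := by
  have hd : HasFDerivAt (fun q : V => q 0) (ContinuousLinearMap.proj 0 : V →L[ℝ] ℝ) p :=
    (ContinuousLinearMap.proj 0 : V →L[ℝ] ℝ).hasFDerivAt
  have h := (hd.pow n).const_mul c
  unfold pd
  rw [h.fderiv]
  by_cases hi : i = 0
  · subst hi; simp
  · rw [if_neg hi]; simp [Pi.single_apply, Ne.symm hi]

theorem inv_ppWave (H : V → ℝ) (p : V) :
    (ppWave H p)⁻¹ = !![1, 0, 0; 0, 0, 2; 0, 2, -4 * H p] := by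
  apply Matrix.inv_eq_right_inv
  ext i j
  fin_cases i <;> fin_cases j <;> simp [ppWave, Matrix.mul_apply, Fin.sum_univ_three] <;> ring

theorem pd_zero' (i : Fin 3) (p : V) : pd i (fun _ => (0 : ℝ)) p = 0 := pd_const 0 i p

theorem pd_one' (i : Fin 3) (p : V) : pd i (fun _ => (1 : ℝ)) p = 0 := pd_const 1 i p

theorem pd_entry (i a b : Fin 3) (p : V) :
    pd i (fun q => gEx q a b) p = if i = 0 ∧ a = 1 ∧ b = 1 then 4 * p 0 ^ 3 else 0 := by
  have h4 : pd i (fun q : V => q 0 ^ 4) p = if i = 0 then 4 * p 0 ^ 3 else 0 := by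
    have := pd_pow_zero 4 1 i p
    simpa using this
  fin_cases a <;> fin_cases b <;> simp [gEx, ppWave, pd_const, h4]

theorem christoffel_gEx (k i j : Fin 3) (p : V) :
    christoffel gEx k i j p = if k = 0 ∧ i = 1 ∧ j = 1 then (-2) * p 0 ^ 3
      else if k = 2 ∧ ((i = 0 ∧ j = 1) ∨ (i = 1 ∧ j = 0)) then 4 * p 0 ^ 3 else 0 := by
  unfold christoffel
  simp only [pd_entry]
  rw [gEx, inv_ppWave]
  fin_cases k <;> fin_cases i <;> fin_cases j <;> simp [Fin.sum_univ_three] <;> ring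

theorem pd_christoffel_gEx (m k i j : Fin 3) (p : V) :
    pd m (christoffel gEx k i j) p = if m = 0 ∧ k = 0 ∧ i = 1 ∧ j = 1 then (-6) * p 0 ^ 2
      else if m = 0 ∧ k = 2 ∧ ((i = 0 ∧ j = 1) ∨ (i = 1 ∧ j = 0)) then 12 * p 0 ^ 2 else 0 := by
  have h : christoffel gEx k i j = fun p => if k = 0 ∧ i = 1 ∧ j = 1 then (-2) * p 0 ^ 3
      else if k = 2 ∧ ((i = 0 ∧ j = 1) ∨ (i = 1 ∧ j = 0)) then 4 * p 0 ^ 3 else 0 := by
    funext q; exact christoffel_gEx k i j q
  rw [h]
  by_cases h1 : k = 0 ∧ i = 1 ∧ j = 1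
  · simp only [h1, and_self, if_true, pd_pow_zero]
    by_cases hm : m = 0
    · simp [hm]; ring
    · simp [hm]
  · by_cases h2 : k = 2 ∧ ((i = 0 ∧ j = 1) ∨ (i = 1 ∧ j = 0))
    · simp only [if_neg h1, if_pos h2, pd_pow_zero]
      by_cases hm : m = 0
      · rw [if_pos hm, if_neg (fun h => h1 h.2), if_pos ⟨hm, h2⟩]; push_cast; ring
      · rw [if_neg hm, if_neg (fun h => hm h.1), if_neg (fun h => hm h.1)]
    · simp only [if_neg h1, if_neg h2, pd_const]
      rw [if_neg (fun h => h1 h.2), if_neg (fun h => h2 h.2)]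

theorem ricci_gEx (i j : Fin 3) (p : V) :
    ricci gEx i j p = if i = 1 ∧ j = 1 then (-6) * p 0 ^ 2 else 0 := by
  unfold ricci
  simp only [pd_christoffel_gEx, christoffel_gEx, Fin.sum_univ_three]
  fin_cases i <;> fin_cases j <;> simp

theorem scalar_gEx (p : V) : scalar gEx p = 0 := by
  unfold scalar
  simp only [ricci_gEx]
  rw [gEx, inv_ppWave]
  simp [Fin.sum_univ_three]

theorem schouten_gEx (a b : Fin 3) (p : V) :
    schouten gEx a b p = if a = 1 ∧ b = 1 then (-6) * p 0 ^ 2 else 0 := by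
  unfold schouten
  rw [scalar_gEx, ricci_gEx]; ring

theorem nablaSchouten_gEx (c a b : Fin 3) (p : V) :
    nablaSchouten gEx c a b p = if c = 0 ∧ a = 1 ∧ b = 1 then (-12) * p 0 else 0 := by
  unfold nablaSchouten
  have h : schouten gEx a b = fun p => if a = 1 ∧ b = 1 then (-6) * p 0 ^ 2 else 0 := by
    funext q; exact schouten_gEx a b q
  rw [h]
  simp only [christoffel_gEx, schouten_gEx, Fin.sum_univ_three]
  by_cases h1 : a = 1 ∧ b = 1
  · obtain ⟨rfl, rfl⟩ := h1
    simp only [and_self, if_true, pd_pow_zero]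
    fin_cases c <;> simp <;> ring
  · simp only [if_neg h1, pd_const]
    fin_cases a <;> fin_cases b <;> fin_cases c <;> simp at h1 ⊢

theorem cotton_gEx (c a b : Fin 3) (p : V) :
    cotton gEx c a b p = if a = 0 ∧ b = 1 ∧ c = 1 then (-12) * p 0
      else if a = 1 ∧ b = 0 ∧ c = 1 then 12 * p 0 else 0 := by
  unfold cotton
  rw [nablaSchouten_gEx, nablaSchouten_gEx]
  fin_cases a <;> fin_cases b <;> fin_cases c <;> simp

theorem isLorentzian_ppWave {H : V → ℝ} (hH : ContDiff ℝ ∞ H) (U : Set V) :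
    IsLorentzian U (ppWave H) := by
  refine ⟨fun i j => ?_, fun p _ => ?_, fun p _ => ?_⟩
  · apply ContDiff.contDiffOn
    fin_cases i <;> fin_cases j <;> simp [ppWave] <;> first | exact contDiff_const | exact hH
  · ext i j
    fin_cases i <;> fin_cases j <;> simp [ppWave]
  · -- negative direction `∂_y - (H+1) ∂_t`, positive ones `∂_y + (1-H) ∂_t` and `∂_x`
    refine ⟨!![0, 0, 1; 1, 1, 0; -(H p + 1), 1 - H p, 0], ?_, ?_⟩
    · rw [Matrix.det_fin_three]
      simp only [Matrix.of_apply, Matrix.cons_val', Matrix.cons_val_zero, Matrix.cons_val_one,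
        Matrix.cons_val, isUnit_iff_ne_zero]
      intro h
      ring_nf at h
      norm_num at h
    · ext i j
      fin_cases i <;> fin_cases j <;>
        simp [ppWave, Matrix.mul_apply, Fin.sum_univ_three, Matrix.transpose_apply,
          Matrix.diagonal_apply] <;> ring

theorem isConformalKilling_gEx : IsConformalKilling Set.univ gEx fun _ => Pi.single 2 1 := by
  refine ⟨contDiffOn_const, fun _ => 0, contDiffOn_const, fun p _ i j => ?_⟩
  unfold lieDeriv
  simp only [pd_const, pd_entry, Fin.sum_univ_three]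
  simp

theorem isNormal_gEx : IsNormal Set.univ gEx fun _ => Pi.single 2 1 := by
  intro p _ a b
  simp only [cotton_gEx, Fin.sum_univ_three]
  fin_cases a <;> fin_cases b <;> simp

end Pool.Agent.R739.PPWave
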