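import Pool.Agent.R739.PPWave.Main

open scoped ContDiff BigOperators

namespace Pool.Agent.R739.PPWave

variable {U U' : Set V}

theorem smooth_coord (j : Fin 3) (U : Set V) : ContDiffOn ℝ ∞ (fun p : V => p j) U :=
  (contDiff_apply ℝ ℝ j).contDiffOn

theorem smooth_h {h : ℝ → ℝ} (hh : ContDiff ℝ ∞ h) (U : Set V) :
    ContDiffOn ℝ ∞ (fun p : V => h (p 1)) U :=
  (hh.comp (contDiff_apply ℝ ℝ (1 : Fin 3))).contDiffOn

/-- the coefficient `x³ + h(y) x` -/
noncomputable def Hh (h : ℝ → ℝ) (p : V) : ℝ := p 0 ^ 3 + h (p 1) * p 0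

theorem smooth_Hh {h : ℝ → ℝ} (hh : ContDiff ℝ ∞ h) (U : Set V) : ContDiffOn ℝ ∞ (Hh h) U :=
  ((smooth_coord 0 U).pow 3).add ((smooth_h hh U).mul (smooth_coord 0 U))

theorem pd_h {h : ℝ → ℝ} (hh : ContDiff ℝ ∞ h) (i : Fin 3) (hi : i ≠ 1) (p : V) :
    pd i (fun p : V => h (p 1)) p = 0 := by
  have hd : HasFDerivAt (fun q : V => q 1) (ContinuousLinearMap.proj 1 : V →L[ℝ] ℝ) p :=
    (ContinuousLinearMap.proj 1 : V →L[ℝ] ℝ).hasFDerivAt
  have h1 : HasFDerivAt (fun q : V => h (q 1)) _ p :=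
    ((hh.differentiable (by simp)).differentiableAt.hasDerivAt).comp_hasFDerivAt p hd
  unfold pd
  rw [h1.fderiv]
  simp [Ne.symm hi]

theorem gh_entry_smooth {h : ℝ → ℝ} (hh : ContDiff ℝ ∞ h) (U : Set V) (i j : Fin 3) :
    ContDiffOn ℝ ∞ (fun p => gh h p i j) U := by
  have := smooth_Hh hh U
  unfold Hh at this
  fin_cases i <;> fin_cases j <;> simp [gh, ppWave] <;> first | exact contDiffOn_const | exact this

theorem gEx_entry_smooth (U : Set V) (i j : Fin 3) :
    ContDiffOn ℝ ∞ (fun p => gEx p i j) U := by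
  have : ContDiffOn ℝ ∞ (fun p : V => p 0 ^ 4) U := (smooth_coord 0 U).pow 4
  fin_cases i <;> fin_cases j <;> simp [gEx, ppWave] <;>
    first | exact contDiffOn_const | exact this

theorem det_gEx (p : V) : (gEx p).det ≠ 0 := by
  rw [gEx, Matrix.det_fin_three]
  simp [ppWave]

theorem field_eq_zero (hU' : IsOpen U') {h : ℝ → ℝ} (hh : ContDiff ℝ ∞ h) {K : V → V}
    (hK : ContDiffOn ℝ ∞ K U') {lam : V → ℝ} (hlam : ContDiffOn ℝ ∞ lam U')
    (hlie : ∀ q ∈ U', ∀ i j, lieDeriv (gh h) K i j q = lam q * gh h q i j)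
    (hnull : ∀ q ∈ U', K q 1 * K q 2 + K q 0 ^ 2 + Hh h q * K q 1 ^ 2 = 0) :
    ∀ q ∈ U', K q 0 = 0 ∧ K q 1 = 0 := by
  have hKA := comp_smooth hK
  have hH := smooth_Hh hh U'
  have e : ∀ a b, ∀ q, gh h q a b = if a = 0 ∧ b = 0 then 1 else if a = 1 ∧ b = 1 then Hh h q
      else if (a = 1 ∧ b = 2) ∨ (a = 2 ∧ b = 1) then 1 / 2 else 0 := by
    intro a b q
    fin_cases a <;> fin_cases b <;> simp [gh, ppWave, Hh]
  have epd : ∀ c a b, ∀ q, pd c (fun q => gh h q a b) q
      = if a = 1 ∧ b = 1 then pd c (Hh h) q else 0 := by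
    intro c a b q
    fin_cases a <;> fin_cases b <;> simp [gh, ppWave, pd_const] <;> rfl
  have L : ∀ q ∈ U', ∀ i j, (∑ c, (K q c * (if i = 1 ∧ j = 1 then pd c (Hh h) q else 0)
      + gh h q c j * pd i (fun q => K q c) q
      + gh h q i c * pd j (fun q => K q c) q)) = lam q * gh h q i j := by
    intro q hq i j
    rw [← hlie q hq i j]
    unfold lieDeriv
    simp only [epd]
  set X := DA hU' 0
  set Y := DA hU' 1
  set T := DA hU' 2
  set ξ : SA U' := mkA _ (smooth_coord 0 U') with hξdef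
  set k : SA U' := mkA _ (smooth_h hh U') with hkdef
  set H : SA U' := mkA _ hH with hHdef
  have hHeq : H = ξ ^ 3 + k * ξ := by
    apply ev_ext; intro y
    rw [map_add, map_pow, map_mul, ev_mkA, ev_mkA, ev_mkA]; rfl
  have hXξ : X ξ = 1 := by
    apply ev_ext; intro y
    rw [DA_mkA, ev_mkA, map_one, pd_coord]; simp
  have hTξ : T ξ = 0 := by
    apply ev_ext; intro y
    rw [DA_mkA, ev_mkA, map_zero, pd_coord]; simp
  have hXk : X k = 0 := by
    apply ev_ext; intro y
    rw [DA_mkA, ev_mkA, map_zero, pd_h hh 0 (by simp)]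
  have hTk : T k = 0 := by
    apply ev_ext; intro y
    rw [DA_mkA, ev_mkA, map_zero, pd_h hh 2 (by simp)]
  have hTH : T H = 0 := by
    rw [hHeq]; simp only [map_add, der_mul, der_cube, hTξ, hTk]; ring
  have hXXXH : X (X (X H)) = 6 := by
    rw [hHeq]
    simp only [map_add, der_mul, der_cube, der_sq, hXξ, hXk, der_n3, der_n2, mul_one, mul_zero,
      add_zero, map_zero, Derivation.map_one_eq_zero, zero_mul, zero_add]
    ring
  have main := null_ckf X Y T (DA_comm hU' 0 1) (DA_comm hU' 0 2) (DA_comm hU' 1 2)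
    (mkA _ (hKA 0)) (mkA _ (hKA 1)) (mkA _ (hKA 2)) (mkA _ hlam) H hTH hXXXH ?_ ?_ ?_ ?_ ?_ ?_ ?_
  · intro q hq
    have h1 := ev_eq_zero_of_sq main.1 ⟨q, hq⟩
    rw [ev_mkA] at h1
    have h2 := congrArg (ev ⟨q, hq⟩) main.2
    rw [map_pow, map_neg, map_mul, ev_mkA, ev_mkA, h1] at h2
    refine ⟨?_, h1⟩
    apply pow_eq_zero_iff two_ne_zero |>.1
    rw [h2]; ring
  · apply ev_ext; intro q
    have hL := L q q.2 0 0
    simp only [Fin.sum_univ_three, e] at hL
    simp at hL
    rw [DA_mkA, ev_mkA, map_mul, ev_mkA, map_ofNat]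
    linear_combination hL
  · apply ev_ext; intro q
    have hL := L q q.2 2 2
    simp only [Fin.sum_univ_three, e] at hL
    simp at hL
    rw [DA_mkA, ev_mkA, map_zero]
    linear_combination hL
  · apply ev_ext; intro q
    have hL := L q q.2 0 2
    simp only [Fin.sum_univ_three, e] at hL
    simp at hL
    rw [DA_mkA, DA_mkA, map_add, map_mul, ev_mkA, ev_mkA, map_zero, map_ofNat]
    linear_combination 2 * hL
  · apply ev_ext; intro q
    have hL := L q q.2 1 2
    have hL' := L q q.2 2 2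
    simp only [Fin.sum_univ_three, e] at hL hL'
    simp at hL hL'
    rw [DA_mkA, DA_mkA, map_add, ev_mkA, ev_mkA, ev_mkA]
    linear_combination 2 * hL - 2 * Hh h q * hL'
  · apply ev_ext; intro q
    have hL := L q q.2 0 1
    simp only [Fin.sum_univ_three, e] at hL
    simp at hL
    rw [DA_mkA, DA_mkA, DA_mkA]
    simp only [map_add, map_mul, ev_mkA, map_zero, map_ofNat, hHdef]
    linear_combination 2 * hL
  · apply ev_ext; intro q
    have hL := L q q.2 1 1
    simp only [Fin.sum_univ_three, e] at hL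
    simp at hL
    have h2 := congrArg (ev q) hTH
    rw [hHdef, DA_mkA, ev_mkA, map_zero] at h2
    rw [hHdef, DA_mkA, DA_mkA, DA_mkA, DA_mkA]
    simp only [map_add, map_mul, ev_mkA, map_ofNat]
    linear_combination hL - K q 2 * h2
  · apply ev_ext; intro q
    simp only [map_add, map_mul, map_pow, ev_mkA, map_zero, hHdef]
    exact hnull q q.2

/-- there is no conformal isomorphism from an open subset of `(ℝ³, gEx)` to an open subset of
`(ℝ³, g_h)` -/
theorem no_conformalIso (hU : IsOpen U) (hU' : IsOpen U') (hne : U.Nonempty) {h : ℝ → ℝ}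
    (hh : ContDiff ℝ ∞ h) (φ : V → V) : ¬ IsConformalIso U gEx U' (gh h) φ := by
  rintro ⟨hφ, hm, ⟨ψ, hψ, hψm, hψφ, hφψ⟩, u, hu, heq⟩
  have hφA := comp_smooth hφ
  have hw := exp_smooth hu 2
  have hwn := exp_smooth hu (-2)
  -- the pushed forward field
  set K : V → V := fun q A => pd 2 (fun p => φ p A) (ψ q) with hKdef
  have hKs : ContDiffOn ℝ ∞ K U' := by
    rw [contDiffOn_pi]
    intro A
    exact (smooth_pd hU (hφA A) 2).comp hψ hψm
  have hlam : ContDiffOn ℝ ∞ (fun q => 2 * pd 2 u (ψ q)) U' :=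
    contDiffOn_const.mul ((smooth_pd hU hu 2).comp hψ hψm)
  have hgt : ∀ i j, ∀ p ∈ U, pd 2 (fun q => gEx q i j) p = 0 := by
    intro i j p _
    rw [pd_entry]; simp
  have push := pushforward hU hU' hφ hm hψφ hu (gEx_entry_smooth U) (gh_entry_smooth hh U')
    (fun p _ => det_gEx p) hgt heq K (fun _ _ => rfl) hKs
  have hKφ : ∀ p ∈ U, ∀ A, K (φ p) A = pd 2 (fun p => φ p A) p := by
    intro p hp A
    simp only [hKdef, hψφ p hp]
  -- entries of the metric equation
  have ent : ∀ p ∈ U, ∀ a b, pd a (fun p => φ p 0) p * pd b (fun p => φ p 0) p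
      + Hh h (φ p) * (pd a (fun p => φ p 1) p * pd b (fun p => φ p 1) p)
      + 1 / 2 * (pd a (fun p => φ p 1) p * pd b (fun p => φ p 2) p
        + pd a (fun p => φ p 2) p * pd b (fun p => φ p 1) p)
      = Real.exp (2 * u p) * gEx p a b := by
    intro p hp a b
    have h1 := congrFun (congrFun (heq p hp) a) b
    simp only [Matrix.mul_apply, Matrix.transpose_apply, jac, Matrix.of_apply,
      Matrix.smul_apply, smul_eq_mul, Fin.sum_univ_three] at h1
    rw [← h1]
    simp [gh, ppWave, Hh]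
    ring
  have zero := field_eq_zero hU' hh hKs hlam
    (by
      intro q hq i j
      have := push (ψ q) (hψm hq) i j
      rw [hφψ q hq] at this
      exact this)
    (by
      intro q hq
      have h1 := ent (ψ q) (hψm hq) 2 2
      rw [← hKφ _ (hψm hq), ← hKφ _ (hψm hq), ← hKφ _ (hψm hq), hφψ q hq] at h1
      have h2 : gEx (ψ q) 2 2 = 0 := by simp [gEx, ppWave]
      rw [h2] at h1
      linear_combination h1)
  have hF : ∀ p ∈ U, pd 2 (fun p => φ p 0) p = 0 := by
    intro p hp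
    rw [← hKφ p hp]
    exact (zero _ (hm hp)).1
  have hG : ∀ p ∈ U, pd 2 (fun p => φ p 1) p = 0 := by
    intro p hp
    rw [← hKφ p hp]
    exact (zero _ (hm hp)).2
  -- the ring
  have hk : ContDiffOn ℝ ∞ (fun p => h (φ p 1)) U := hh.comp_contDiffOn (hφA 1)
  have hk' : ContDiffOn ℝ ∞ (fun p => deriv h (φ p 1)) U :=
    ((contDiff_infty_iff_deriv.1 hh).2).comp_contDiffOn (hφA 1)
  have g00 : ∀ p, gEx p 0 0 = 1 := fun p => by simp [gEx, ppWave]
  have g02 : ∀ p, gEx p 0 2 = 0 := fun p => by simp [gEx, ppWave]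
  have g12 : ∀ p, gEx p 1 2 = 1 / 2 := fun p => by simp [gEx, ppWave]
  have g01 : ∀ p, gEx p 0 1 = 0 := fun p => by simp [gEx, ppWave]
  have g11 : ∀ p, gEx p 1 1 = p 0 ^ 4 := fun p => by simp [gEx, ppWave]
  have final := no_iso (DA hU 0) (DA hU 1) (DA hU 2) (DA_comm hU 0 1) (DA_comm hU 0 2)
    (DA_comm hU 1 2) (mkA _ (smooth_coord 0 U)) ?_ (mkA _ (hφA 0)) (mkA _ (hφA 1)) (mkA _ (hφA 2))
    (mkA _ hw) (mkA _ hk) (mkA _ hk') ?_ ?_ ?_ ?_ ?_ ?_ ?_ ?_ ?_
  · obtain ⟨p, hp⟩ := hne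
    have := congrArg (ev ⟨p, hp⟩) final
    rw [map_one, map_zero] at this
    exact one_ne_zero this
  · apply ev_ext; intro y
    rw [DA_mkA, ev_mkA, map_one, pd_coord]; simp
  · refine IsUnit.of_mul_eq_one (mkA _ hwn) ?_
    apply ev_ext; intro y
    rw [map_mul, ev_mkA, ev_mkA, map_one, ← Real.exp_add]
    simp
  · apply ev_ext; intro y
    rw [DA_mkA, ev_mkA, map_zero]; exact hF y y.2
  · apply ev_ext; intro y
    rw [DA_mkA, ev_mkA, map_zero]; exact hG y y.2
  · apply ev_ext; intro y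
    rw [DA_mkA, DA_mkA, map_mul, ev_mkA, ev_mkA, ev_mkA]
    have hd : HasFDerivAt (fun q : V => φ q 1) (fderiv ℝ (fun q : V => φ q 1) y) y :=
      (diffAt hU (hφA 1) y.2).hasFDerivAt
    have h1 := ((hh.differentiable (by simp)).differentiableAt (x := φ y 1)).hasDerivAt.comp_hasFDerivAt
      (y : V) hd
    unfold pd
    rw [show (fun p : V => h (φ p 1)) = h ∘ (fun q : V => φ q 1) from rfl, h1.fderiv]
    simp
  · apply ev_ext; intro y
    have h1 := ent y y.2 0 0
    rw [g00] at h1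
    simp only [map_add, map_mul, map_pow, DA_mkA, ev_mkA]
    unfold Hh at h1
    linear_combination h1
  · apply ev_ext; intro y
    have h1 := ent y y.2 0 2
    rw [g02, hF y y.2, hG y y.2] at h1
    simp only [map_mul, map_zero, DA_mkA, ev_mkA]
    linear_combination 2 * h1
  · apply ev_ext; intro y
    have h1 := ent y y.2 1 2
    rw [g12, hF y y.2, hG y y.2] at h1
    simp only [map_mul, DA_mkA, ev_mkA]
    linear_combination 2 * h1
  · apply ev_ext; intro y
    have h1 := ent y y.2 0 1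
    rw [g01] at h1
    simp only [map_add, map_mul, map_pow, DA_mkA, ev_mkA, map_zero, map_ofNat]
    unfold Hh at h1
    linear_combination 2 * h1
  · apply ev_ext; intro y
    have h1 := ent y y.2 1 1
    rw [g11] at h1
    simp only [map_add, map_mul, map_pow, DA_mkA, ev_mkA]
    unfold Hh at h1
    linear_combination h1

end Pool.Agent.R739.PPWave
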