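import Pool.Agent.R739.PPWave.Example

open scoped ContDiff BigOperators

namespace Pool.Agent.R739.PPWave

variable {U U' : Set V}

theorem comp_smooth {φ : V → V} (hφ : ContDiffOn ℝ ∞ φ U) (A : Fin 3) :
    ContDiffOn ℝ ∞ (fun p => φ p A) U :=
  (contDiff_apply ℝ ℝ A).comp_contDiffOn hφ

theorem exp_smooth {u : V → ℝ} (hu : ContDiffOn ℝ ∞ u U) (c : ℝ) :
    ContDiffOn ℝ ∞ (fun p => Real.exp (c * u p)) U :=
  Real.contDiff_exp.comp_contDiffOn (contDiffOn_const.mul hu)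

theorem pd_exp (hU : IsOpen U) {u : V → ℝ} (hu : ContDiffOn ℝ ∞ u U) (c : ℝ) (i : Fin 3) {x : V}
    (hx : x ∈ U) :
    pd i (fun p => Real.exp (c * u p)) x = c * pd i u x * Real.exp (c * u x) := by
  have h := ((diffAt hU hu hx).hasFDerivAt.const_mul c).exp
  unfold pd
  rw [h.fderiv]
  simp; ring

theorem jac_isUnit {g g' : Field} {φ : V → V} {x : V} {r : ℝ} (hr : r ≠ 0)
    (hdet : (g x).det ≠ 0)
    (heq : (jac φ x).transpose * g' (φ x) * jac φ x = r • g x) : IsUnit (jac φ x) := by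
  rw [Matrix.isUnit_iff_isUnit_det, isUnit_iff_ne_zero]
  intro h0
  have h := congrArg Matrix.det heq
  rw [Matrix.det_mul, h0, mul_zero, Matrix.det_smul] at h
  exact mul_ne_zero (pow_ne_zero _ hr) hdet h.symm

/-- The push-forward `K` of `∂_t` under a conformal isomorphism is a conformal Killing field, if the
components of `g` do not depend on `t`. -/
theorem pushforward (hU : IsOpen U) (hU' : IsOpen U') {g g' : Field} {φ ψ : V → V} {u : V → ℝ}
    (hφ : ContDiffOn ℝ ∞ φ U) (hm : Set.MapsTo φ U U')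
    (hψφ : ∀ p ∈ U, ψ (φ p) = p) (hu : ContDiffOn ℝ ∞ u U)
    (hg : ∀ i j, ContDiffOn ℝ ∞ (fun p => g p i j) U)
    (hg' : ∀ i j, ContDiffOn ℝ ∞ (fun p => g' p i j) U')
    (hdet : ∀ p ∈ U, (g p).det ≠ 0)
    (hgt : ∀ i j, ∀ p ∈ U, pd 2 (fun q => g q i j) p = 0)
    (heq : ∀ p ∈ U, (jac φ p).transpose * g' (φ p) * jac φ p = Real.exp (2 * u p) • g p)
    (K : V → V) (hK : ∀ q, ∀ A, K q A = pd 2 (fun p => φ p A) (ψ q))
    (hKs : ContDiffOn ℝ ∞ K U') :
    ∀ x ∈ U, ∀ i j, lieDeriv g' K i j (φ x) = 2 * pd 2 u x * g' (φ x) i j := by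
  intro x hx
  have hφA := comp_smooth hφ
  have hG : ∀ A B, ContDiffOn ℝ ∞ (fun p => g' (φ p) A B) U := fun A B =>
    (hg' A B).comp hφ hm
  have hw := exp_smooth hu 2
  -- the identity in the ring
  have key : ∀ a b, ∑ B, ∑ A, DA hU a (mkA _ (hφA A)) * mkA _ (hG A B) * DA hU b (mkA _ (hφA B))
      = mkA _ hw * mkA _ (hg a b) := by
    intro a b
    apply ev_ext
    intro y
    have h := congrFun (congrFun (heq y y.2) a) b
    simp only [Matrix.mul_apply, Matrix.transpose_apply, jac, Matrix.of_apply,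
      Matrix.smul_apply, smul_eq_mul, Fin.sum_univ_three] at h
    simp only [Fin.sum_univ_three, DA_mkA, map_add, map_mul, ev_mkA]
    rw [← h]
    ring
  -- second derivatives
  have hJ2 : ∀ A a, ev ⟨x, hx⟩ (DA hU 2 (DA hU a (mkA _ (hφA A))))
      = ∑ C, pd C (fun q => K q A) (φ x) * pd a (fun p => φ p C) x := by
    intro A a
    rw [DA_comm, DA_mkA, DA_mkA, ev_mkA]
    rw [← pd_comp hU hU' hφ hm (comp_smooth hKs A) a hx]
    refine pd_congr hU (fun y hy => ?_) a x hx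
    rw [hK, hψφ y hy]
  have hG2 : ∀ A B, ev ⟨x, hx⟩ (DA hU 2 (mkA _ (hG A B)))
      = ∑ C, pd C (fun q => g' q A B) (φ x) * K (φ x) C := by
    intro A B
    rw [DA_mkA, ev_mkA]
    have h := pd_comp hU hU' hφ hm (hg' A B) 2 hx
    rw [h]
    refine Finset.sum_congr rfl fun C _ => ?_
    rw [hK, hψφ x hx]
  have hw2 : ev ⟨x, hx⟩ (DA hU 2 (mkA _ hw)) = 2 * pd 2 u x * Real.exp (2 * u x) := by
    rw [DA_mkA, ev_mkA]
    exact pd_exp hU hu 2 2 hx
  have hg2 : ∀ a b, ev ⟨x, hx⟩ (DA hU 2 (mkA _ (hg a b))) = 0 := by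
    intro a b
    rw [DA_mkA, ev_mkA]
    exact hgt a b x hx
  have hJ1 : ∀ A a, ev ⟨x, hx⟩ (DA hU a (mkA _ (hφA A))) = pd a (fun p => φ p A) x := by
    intro A a
    rw [DA_mkA, ev_mkA]
  -- matrices
  have hJu := jac_isUnit (Real.exp_ne_zero (2 * u x)) (hdet x hx) (heq x hx)
  have main : (jac φ x).transpose * (Matrix.of (fun A B => lieDeriv g' K A B (φ x))
      - (2 * pd 2 u x) • g' (φ x)) * jac φ x = 0 := by
    rw [Matrix.mul_sub, Matrix.sub_mul, sub_eq_zero, Matrix.mul_smul, Matrix.smul_mul, heq x hx]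
    ext a b
    have h := congrArg (ev ⟨x, hx⟩) (congrArg (DA hU 2) (key a b))
    simp only [Fin.sum_univ_three, map_add, map_mul, der_mul] at h
    simp only [hJ2, hG2, hw2, hg2, hJ1, ev_mkA, Fin.sum_univ_three] at h
    simp only [Matrix.mul_apply, Matrix.transpose_apply, jac, Matrix.of_apply,
      Matrix.smul_apply, smul_eq_mul, Fin.sum_univ_three, lieDeriv]
    linear_combination h
  have h1 := (IsUnit.mul_left_eq_zero hJu).1 main
  have hJt : IsUnit (jac φ x).transpose := by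
    rw [Matrix.isUnit_iff_isUnit_det, Matrix.det_transpose, ← Matrix.isUnit_iff_isUnit_det]
    exact hJu
  have h2 := (IsUnit.mul_right_eq_zero hJt).1 h1
  intro i j
  have h3 := congrFun (congrFun (sub_eq_zero.1 h2) i) j
  simpa using h3

end Pool.Agent.R739.PPWave
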