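import Pool.Agent.R739.PPWave.Defs
import Pool.Agent.R739.PPWave.Alg

open scoped ContDiff BigOperators

namespace Pool.Agent.R739.PPWave

variable {U : Set V}

/-! ### partial derivatives -/

theorem pd_congr (hU : IsOpen U) {f g : V → ℝ} (h : ∀ x ∈ U, f x = g x) (i : Fin 3) :
    ∀ x ∈ U, pd i f x = pd i g x := by
  intro x hx
  have : f =ᶠ[nhds x] g := Filter.eventuallyEq_of_mem (hU.mem_nhds hx) h
  unfold pd; rw [this.fderiv_eq]

theorem diffAt (hU : IsOpen U) {f : V → ℝ} (hf : ContDiffOn ℝ ∞ f U) {x : V} (hx : x ∈ U) :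
    DifferentiableAt ℝ f x :=
  (hf.contDiffAt (hU.mem_nhds hx)).differentiableAt (by simp)

theorem pd_add (hU : IsOpen U) {f g : V → ℝ} (hf : ContDiffOn ℝ ∞ f U) (hg : ContDiffOn ℝ ∞ g U)
    (i : Fin 3) {x : V} (hx : x ∈ U) : pd i (fun y => f y + g y) x = pd i f x + pd i g x := by
  unfold pd
  rw [show (fun y => f y + g y) = f + g from rfl, fderiv_add (diffAt hU hf hx) (diffAt hU hg hx)]
  rfl

theorem pd_mul (hU : IsOpen U) {f g : V → ℝ} (hf : ContDiffOn ℝ ∞ f U) (hg : ContDiffOn ℝ ∞ g U)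
    (i : Fin 3) {x : V} (hx : x ∈ U) :
    pd i (fun y => f y * g y) x = f x * pd i g x + g x * pd i f x := by
  unfold pd
  rw [show (fun y => f y * g y) = f * g from rfl, fderiv_mul (diffAt hU hf hx) (diffAt hU hg hx)]
  simp

theorem pd_const (c : ℝ) (i : Fin 3) (x : V) : pd i (fun _ => c) x = 0 := by
  unfold pd; simp

theorem smooth_pd (hU : IsOpen U) {f : V → ℝ} (hf : ContDiffOn ℝ ∞ f U) (i : Fin 3) :
    ContDiffOn ℝ ∞ (pd i f) U := by
  have : ContDiffOn ℝ ∞ (fderiv ℝ f) U := hf.fderiv_of_isOpen hU (by simp)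
  exact this.clm_apply contDiffOn_const

theorem pd_comm (hU : IsOpen U) {f : V → ℝ} (hf : ContDiffOn ℝ ∞ f U) (i j : Fin 3) {x : V}
    (hx : x ∈ U) : pd i (pd j f) x = pd j (pd i f) x := by
  have hat : ContDiffAt ℝ ∞ f x := hf.contDiffAt (hU.mem_nhds hx)
  have hsym : IsSymmSndFDerivAt ℝ f x := hat.isSymmSndFDerivAt (by
    simp only [minSmoothness_of_isRCLikeNormedField]
    exact (WithTop.coe_le_coe.2 (le_top : (2:ℕ∞) ≤ ⊤)))
  have hd : DifferentiableAt ℝ (fderiv ℝ f) x :=
    ((hf.fderiv_of_isOpen hU (m := ∞) (by simp)).contDiffAt (hU.mem_nhds hx)).differentiableAt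
      (by simp)
  have key : ∀ i j : Fin 3, pd i (pd j f) x
      = fderiv ℝ (fderiv ℝ f) x (Pi.single i 1) (Pi.single j 1) := by
    intro i j
    have h1 : fderiv ℝ (fun y => fderiv ℝ f y (Pi.single j 1)) x =
        (fderiv ℝ (fderiv ℝ f) x).flip (Pi.single j 1) := by
      rw [fderiv_clm_apply hd (differentiableAt_const _)]
      simp
    show fderiv ℝ (fun y => fderiv ℝ f y (Pi.single j 1)) x (Pi.single i 1) = _
    rw [h1]
    rfl
  rw [key, key]
  exact hsym _ _

/-- chain rule -/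
theorem pd_comp (hU : IsOpen U) {U' : Set V} (hU' : IsOpen U') {φ : V → V}
    (hφ : ContDiffOn ℝ ∞ φ U) (hm : Set.MapsTo φ U U') {F : V → ℝ} (hF : ContDiffOn ℝ ∞ F U')
    (i : Fin 3) {x : V} (hx : x ∈ U) :
    pd i (fun y => F (φ y)) x = ∑ B, pd B F (φ x) * pd i (fun y => φ y B) x := by
  have hφx : DifferentiableAt ℝ φ x :=
    (hφ.contDiffAt (hU.mem_nhds hx)).differentiableAt (by simp)
  have hFx : DifferentiableAt ℝ F (φ x) := diffAt hU' hF (hm hx)
  have h1 : pd i (fun y => F (φ y)) x = fderiv ℝ F (φ x) (fderiv ℝ φ x (Pi.single i 1)) := by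
    unfold pd
    rw [show (fun y => F (φ y)) = F ∘ φ from rfl, fderiv_comp x hFx hφx]
    rfl
  have h2 : ∀ B, pd i (fun y => φ y B) x = fderiv ℝ φ x (Pi.single i 1) B := by
    intro B
    unfold pd
    rw [fderiv_apply hφx]
    rfl
  rw [h1]
  set v := fderiv ℝ φ x (Pi.single i 1) with hv
  have h3 : v = ∑ B, v B • (Pi.single B (1 : ℝ) : V) := by
    ext j
    simp [Finset.sum_apply, Pi.single_apply]
  conv_lhs => rw [h3]
  rw [map_sum]
  refine Finset.sum_congr rfl fun B _ => ?_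
  rw [map_smul, h2 B, smul_eq_mul, mul_comm]
  rfl

/-! ### the ring of smooth functions on `U` -/

open Classical in
/-- extension by `0` -/
noncomputable def ext (U : Set V) (f : U → ℝ) (x : V) : ℝ := if h : x ∈ U then f ⟨x, h⟩ else 0

theorem ext_of_mem (f : U → ℝ) {x : V} (h : x ∈ U) : ext U f x = f ⟨x, h⟩ := by
  unfold ext; rw [dif_pos h]

/-- smooth functions on `U` -/
noncomputable def SA (U : Set V) : Subalgebra ℝ (U → ℝ) where
  carrier := {f | ContDiffOn ℝ ∞ (ext U f) U}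
  mul_mem' := by
    intro f g hf hg
    refine ContDiffOn.congr (ContDiffOn.mul hf hg) fun x hx => ?_
    simp only [ext_of_mem _ hx, Pi.mul_apply]
  add_mem' := by
    intro f g hf hg
    refine ContDiffOn.congr (ContDiffOn.add hf hg) fun x hx => ?_
    simp only [ext_of_mem _ hx, Pi.add_apply]
  algebraMap_mem' := by
    intro r
    refine ContDiffOn.congr (contDiffOn_const (c := r)) fun x hx => ?_
    simp only [ext_of_mem _ hx]
    rfl

/-- a function which is smooth on `U`, as an element of `SA U` -/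
noncomputable def mkA (F : V → ℝ) (hF : ContDiffOn ℝ ∞ F U) : SA U :=
  ⟨fun x => F x, ContDiffOn.congr hF fun x hx => by simp only [ext_of_mem _ hx]⟩

@[simp] theorem mkA_apply (F : V → ℝ) (hF : ContDiffOn ℝ ∞ F U) (x : U) :
    (mkA F hF : U → ℝ) x = F x := rfl

/-- the derivation `∂_i` of `SA U` -/
noncomputable def DA (hU : IsOpen U) (i : Fin 3) : Derivation ℝ (SA U) (SA U) where
  toFun f := ⟨fun x => pd i (ext U (f : U → ℝ)) x,
    ContDiffOn.congr (smooth_pd hU f.2 i) fun x hx => by simp only [ext_of_mem _ hx]⟩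
  map_add' := by
    intro f g
    apply Subtype.ext
    funext x
    change pd i (ext U ((f : U → ℝ) + g)) x = pd i (ext U (f : U → ℝ)) x + pd i (ext U (g : U → ℝ)) x
    rw [← pd_add hU f.2 g.2 i x.2]
    refine pd_congr hU (fun y hy => ?_) i x x.2
    simp only [ext_of_mem _ hy, Pi.add_apply]
  map_smul' := by
    intro r f
    apply Subtype.ext
    funext x
    change pd i (ext U (r • (f : U → ℝ))) x = r * pd i (ext U (f : U → ℝ)) x
    have h := pd_mul hU (contDiffOn_const (c := r)) f.2 i x.2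
    rw [pd_const, mul_zero, add_zero] at h
    rw [← h]
    refine pd_congr hU (fun y hy => ?_) i x x.2
    simp only [ext_of_mem _ hy, Pi.smul_apply, smul_eq_mul]
  map_one_eq_zero' := by
    apply Subtype.ext
    funext x
    change pd i (ext U (1 : U → ℝ)) x = 0
    rw [← pd_const 1 i x]
    refine pd_congr hU (fun y hy => ?_) i x x.2
    simp only [ext_of_mem _ hy, Pi.one_apply]
  leibniz' := by
    intro f g
    apply Subtype.ext
    funext x
    change pd i (ext U ((f : U → ℝ) * g)) x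
      = (f : U → ℝ) x * pd i (ext U (g : U → ℝ)) x + (g : U → ℝ) x * pd i (ext U (f : U → ℝ)) x
    have h := pd_mul hU f.2 g.2 i x.2
    rw [ext_of_mem _ x.2, ext_of_mem _ x.2] at h
    rw [← h]
    refine pd_congr hU (fun y hy => ?_) i x x.2
    simp only [ext_of_mem _ hy, Pi.mul_apply]

theorem DA_mkA (hU : IsOpen U) (i : Fin 3) (F : V → ℝ) (hF : ContDiffOn ℝ ∞ F U) :
    DA hU i (mkA F hF) = mkA (pd i F) (smooth_pd hU hF i) := by
  apply Subtype.ext
  funext x
  change pd i (ext U (fun y : U => F y)) x = pd i F x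
  exact pd_congr hU (fun y hy => by simp only [ext_of_mem _ hy]) i x x.2

theorem DA_comm (hU : IsOpen U) (i j : Fin 3) (a : SA U) :
    DA hU i (DA hU j a) = DA hU j (DA hU i a) := by
  obtain ⟨f, hf⟩ := a
  have h0 : (⟨f, hf⟩ : SA U) = mkA (ext U f) hf := by
    apply Subtype.ext
    funext x
    change f x = ext U f x
    rw [ext_of_mem _ x.2]
  rw [h0, DA_mkA, DA_mkA, DA_mkA, DA_mkA]
  apply Subtype.ext
  funext x
  exact pd_comm hU hf i j x.2

/-- evaluation at a point of `U` -/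
noncomputable def ev (x : U) : SA U →ₐ[ℝ] ℝ :=
  (Pi.evalAlgHom ℝ (fun _ : U => ℝ) x).comp (SA U).val

theorem ev_mkA (x : U) (F : V → ℝ) (hF : ContDiffOn ℝ ∞ F U) : ev x (mkA F hF) = F x := rfl

theorem ev_ext {a b : SA U} (h : ∀ x : U, ev x a = ev x b) : a = b :=
  Subtype.ext (funext h)

theorem SA_ext {a b : SA U} (h : ∀ x : U, (a : U → ℝ) x = (b : U → ℝ) x) : a = b :=
  Subtype.ext (funext h)

theorem ev_eq_zero_of_sq {a : SA U} (h : a ^ 2 = 0) : ∀ x : U, ev x a = 0 := by
  intro x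
  have := congrArg (ev x) h
  rw [map_pow, map_zero] at this
  exact pow_eq_zero_iff two_ne_zero |>.1 this

end Pool.Agent.R739.PPWave
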